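import Pool.Agent.H18.WolfAll

namespace Pool.Agent.Results.MP_a19cb6_nt.WolfFalse

open Finset

/-- `p` and `p + h` are consecutive primes -/
def GapPair (h p : ℕ) : Prop := p.Prime ∧ (p + h).Prime ∧ ∀ q, p < q → q < p + h → ¬ q.Prime

open Classical in
/-- the term of the generalized Brun series indexed by the smaller prime `p` -/
noncomputable def term (h p : ℕ) : ℝ := if GapPair h p then 1 / (p : ℝ) + 1 / ((p : ℝ) + h) else 0

/-- the twin prime constant, as a product over all `p` with factor `1` unless `p` is an odd prime -/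
noncomputable def C : ℝ := ∏' p : ℕ, if p.Prime ∧ 2 < p then 1 - 1 / ((p : ℝ) - 1) ^ 2 else 1

/-- the value predicted by Wolf -/
noncomputable def W (h : ℕ) : ℝ :=
  4 * C / h * ∏ p ∈ h.primeFactors with 2 < p, ((p : ℝ) - 1) / ((p : ℝ) - 2)

lemma mult : Multipliable
    (fun p : ℕ => if p.Prime ∧ 2 < p then 1 - 1 / ((p : ℝ) - 1) ^ 2 else 1) := by
  have h : Summable (fun p : ℕ => if p.Prime ∧ 2 < p then -(1 / ((p : ℝ) - 1) ^ 2) else 0) := by
    have h1 : Summable (fun p : ℕ => 4 * (1 / (p : ℝ) ^ 2)) :=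
      (Real.summable_one_div_nat_pow.mpr (by norm_num)).mul_left 4
    refine h1.of_norm_bounded (fun p => ?_)
    split_ifs with hp
    · have h2 : (2 : ℝ) < p := by exact_mod_cast hp.2
      rw [norm_neg, Real.norm_of_nonneg (by positivity), mul_one_div,
        div_le_div_iff₀ (by nlinarith) (by positivity)]
      nlinarith
    · simp
  convert Real.multipliable_one_add_of_summable h using 2 with p
  split_ifs <;> ring

lemma C_le : C ≤ 66036 / 100000 := by
  have h1 : C ≤ ∏ p ∈ range 500,
      (if p.Prime ∧ 2 < p then 1 - 1 / ((p : ℝ) - 1) ^ 2 else 1) := by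
    refine le_of_tendsto mult.hasProd ?_
    simp only [SummationFilter.unconditional_filter]
    filter_upwards [Filter.eventually_ge_atTop (range 500)] with s hs
    apply Finset.prod_le_prod_of_subset_of_le_one hs
    · intro p _
      split_ifs with hp
      · have h2 : (2 : ℝ) < p := by exact_mod_cast hp.2
        rw [sub_nonneg, div_le_one (by nlinarith)]
        nlinarith
      · norm_num
    · intro p _ _
      split_ifs with hp
      · have : (0 : ℝ) ≤ 1 / ((p : ℝ) - 1) ^ 2 := by positivity
        linarith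
      · exact le_rfl
  have h2 : ∏ p ∈ range 500, (if p.minFac = p ∧ 2 < p then 1 - 1 / ((p : ℚ) - 1) ^ 2 else 1)
      ≤ 66036 / 100000 := by decide +kernel
  have h3 := (Rat.cast_le (K := ℝ)).mpr h2
  rw [Rat.cast_prod] at h3
  refine h1.trans (le_trans (le_of_eq ?_) (h3.trans (le_of_eq ?_)))
  · apply Finset.prod_congr rfl
    intro p _
    have h4 : (p.Prime ∧ 2 < p) ↔ (p.minFac = p ∧ 2 < p) := by
      rw [Nat.prime_def_minFac]; omega
    simp only [h4]
    split_ifs <;> simp
  · norm_num

theorem result : ¬ ∀ h : ℕ, Even h → 6 ≤ h → HasSum (term h) (W h) := by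
  intro H
  have h1 := H 6 (by norm_num) le_rfl
  have h2 : ∑ p ∈ range (30 * 10420229), term 6 p ≤ W 6 :=
    sum_le_hasSum _ (fun p _ => Pool.Agent.H18.Wolf.term_nonneg 6 p) h1
  have h3 := Pool.Agent.H18.Wolf.l166
  unfold Pool.Agent.H18.Wolf.LB Pool.Agent.H18.Wolf.S at h3
  rw [Pool.Agent.H18.Wolf.sum_A] at h3
  have h4 : W 6 = 4 * C / 3 := by
    unfold W
    have : (6 : ℕ).primeFactors.filter (fun p => 2 < p) = {3} := by decide +kernel
    rw [this, Finset.prod_singleton]
    push_cast
    ring
  have h5 := C_le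
  change ∑ p ∈ range (30 * 10420229), Pool.Agent.H18.Wolf.term 6 p ≤ W 6 at h2
  generalize ∑ p ∈ range (30 * 10420229), Pool.Agent.H18.Wolf.term 6 p = x at h2 h3
  push_cast at h3
  linarith

end Pool.Agent.Results.MP_a19cb6_nt.WolfFalse
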